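import Pool.Agent.W838.DC.Stm3
import Pool.Agent.W838.DC.Basic

set_option autoImplicit false

namespace Pool.Agent.W227.DC

open Pool.Agent.W838.DC Pool.Agent.W838.DC.Sys

variable {B : Type*} {M : CoxeterMatrix B} {W : Type*} [Group W] (cs : CoxeterSystem M W)

/-- one step of the Bruhat order -/
def Stp (x y : W) : Prop := ∃ t, cs.IsReflection t ∧ y = t * x ∧ cs.length x < cs.length y

variable {cs}

theorem BLe.trans {x y z : W} (h : BLe cs x y) (h' : BLe cs y z) : BLe cs x z :=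
  Relation.ReflTransGen.trans h h'

theorem BLe.refl (x : W) : BLe cs x x := Relation.ReflTransGen.refl

theorem BLe.single {x y : W} (h : Stp cs x y) : BLe cs x y := Relation.ReflTransGen.single h

theorem BLe.len {x y : W} (h : BLe cs x y) : cs.length x ≤ cs.length y := by
  induction h with
  | refl => exact le_refl _
  | tail _ hbc ih =>
    obtain ⟨t, _, _, hl⟩ := hbc
    exact ih.trans hl.le

theorem BLt.len {x y : W} (h : BLt cs x y) : cs.length x < cs.length y := by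
  obtain ⟨h1, h2⟩ := h
  rcases Relation.ReflTransGen.cases_head h1 with h3 | ⟨c, hc, hcy⟩
  · exact absurd h3 h2
  · obtain ⟨t, _, _, hl⟩ := hc
    exact lt_of_lt_of_le hl (BLe.len hcy)

section sys

variable {σ : Sys (B → ℤ) W}

theorem R_iff (hc : S_CNT σ) (hmu : ∀ x, σ.mu x = cs.length x) {a : B → ℤ} (ha : a ∈ σ.Φ)
    (pa : 0 < σ.ht a) (x : W) : σ.R x a ↔ cs.length (σ.r a x) < cs.length x := by
  constructor
  · intro h
    have := (hc x a h).1
    rwa [hmu, hmu] at this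
  · intro h
    rcases σ.R_or_N x ha pa with h1 | h1
    · exact h1
    · exfalso
      have h2 : σ.R (σ.r a x) a := by
        refine ⟨ha, pa, ?_⟩
        rw [σ.lab_r_self ha, map_neg]
        have := h1.2.2
        omega
      have h3 := (hc _ a h2).1
      rw [σ.r_r ha, hmu, hmu] at h3
      omega

variable {u : W}

/-- the hypotheses on the system -/
structure HS (cs : CoxeterSystem M W) (σ : Sys (B → ℤ) W) (u : W) : Prop where
  hc : S_CNT σ
  hch : S_CHAIN σ
  hP : ∀ x, σ.P x ↔ BLe cs u x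
  hmu : ∀ x, σ.mu x = cs.length x
  hr : ∀ a ∈ σ.Φ, ∃ t, cs.IsReflection t ∧ ∀ x, σ.r a x = t * x
  ht : ∀ t, cs.IsReflection t → ∃ a ∈ σ.Φ, 0 < σ.ht a ∧ ∀ x, σ.r a x = t * x

variable (H : HS cs σ u)

include H

theorem Psi_stp {y : W} {a : B → ℤ} (h : σ.Psi y a) :
    Stp cs (σ.r a y) y ∧ BLe cs u (σ.r a y) := by
  refine ⟨?_, (H.hP _).1 h.2⟩
  obtain ⟨t, ht, hr⟩ := H.hr a h.1.1
  refine ⟨t, ht, ?_, (R_iff H.hc H.hmu h.1.1 h.1.2.1 y).1 h.1⟩
  rw [hr y, ← mul_assoc, ht.mul_self, one_mul]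

theorem stp_Psi {y c : W} (h : Stp cs y c) (hy : BLe cs u y) : ∃ a, σ.Psi c a ∧ y = σ.r a c := by
  obtain ⟨t, ht, hc, hl⟩ := h
  obtain ⟨a, ha, pa, hr⟩ := H.ht t ht
  have h1 : σ.r a c = y := by
    rw [hr c, hc, ← mul_assoc, ht.mul_self, one_mul]
  refine ⟨a, ⟨(R_iff H.hc H.hmu ha pa c).2 (by rw [h1]; exact hl), ?_⟩, h1.symm⟩
  rw [h1]
  exact (H.hP y).2 hy

theorem reach_iff {v y : W} (hv : BLe cs u v) :
    σ.Reach v y ↔ BLe cs u y ∧ BLe cs y v := by
  constructor
  · intro h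
    induction h with
    | refl => exact ⟨hv, BLe.refl _⟩
    | tail _ hbc ih =>
      obtain ⟨a, ha, rfl⟩ := hbc
      have h1 := Psi_stp H ha
      exact ⟨h1.2, (BLe.single h1.1).trans ih.2⟩
  · rintro ⟨h1, h2⟩
    revert h1
    induction h2 using Relation.ReflTransGen.head_induction_on with
    | refl => intro _; exact Relation.ReflTransGen.refl
    | head hac _ ih =>
      intro h1
      have hac' : Stp cs _ _ := hac
      have h3 := h1.trans (BLe.single hac')
      obtain ⟨b, hb, hb'⟩ := stp_Psi H hac' h1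
      exact Relation.ReflTransGen.tail (ih h3) ⟨b, hb, hb'⟩

theorem cv_iff {x y : W} (hx : BLe cs u x) : BCov cs x y ↔ Cv σ y x := by
  constructor
  · rintro ⟨h1, h2⟩
    have hy : BLe cs u y := hx.trans h1.1
    have h3 : σ.Reach y x := (reach_iff H hy).2 ⟨hx, h1.1⟩
    have h4 := H.hch y x h3
    rcases Relation.ReflTransGen.cases_head h4 with h5 | ⟨c, hc, hcx⟩
    · exact absurd h5.symm h1.2
    · obtain ⟨a, ha, hca, hm⟩ := hc
      have h6 := Psi_stp H ha
      rw [← hca] at h6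
      have h7 : σ.Reach c x := by
        have h70 : ∀ p r, Cv σ p r → ∃ b, σ.Psi p b ∧ r = σ.r b p := by
          rintro p r ⟨b, hb, hr, _⟩
          exact ⟨b, hb, hr⟩
        exact Relation.ReflTransGen.mono h70 _ _ hcx
      have h8 := ((reach_iff H h6.2).1 h7).2
      have h9 : BLt cs c y := by
        refine ⟨BLe.single h6.1, ?_⟩
        rintro rfl
        omega
      by_cases h10 : x = c
      · rw [h10]
        exact ⟨a, ha, hca, hm⟩
      · exact absurd h9 (h2 c ⟨h8, h10⟩)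
  · rintro ⟨a, ha, hxa, hm⟩
    have h6 := Psi_stp H ha
    rw [← hxa] at h6
    rw [H.hmu, H.hmu] at hm
    refine ⟨⟨BLe.single h6.1, ?_⟩, ?_⟩
    · rintro rfl
      omega
    · intro z hz hz'
      have := BLt.len hz
      have := BLt.len hz'
      omega

theorem sm {v : W} (hv : BLe cs u v) {f : W → W} (hf : IsSpecialMatching cs u v f) :
    SM σ v f where
  maps y hy := (reach_iff H hv).2 (hf.maps y ((reach_iff H hv).1 hy))
  inv y hy := hf.inv y ((reach_iff H hv).1 hy)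
  cov y hy := by
    have h1 := (reach_iff H hv).1 hy
    rcases hf.cov y h1 with h2 | h2
    · exact Or.inr ((cv_iff H h1.1).1 h2)
    · exact Or.inl ((cv_iff H (hf.maps y h1).1).1 h2)
  spec y z hy hyz hne := by
    have h1 := (reach_iff H hv).1 hy
    obtain ⟨a, ha, hza, hm⟩ := hyz
    have h2 := Psi_stp H ha
    rw [← hza] at h2
    have hz : InInt cs u v z := ⟨h2.2, (BLe.single h2.1).trans h1.2⟩
    have h3 : BCov cs z y := (cv_iff H h2.2).2 ⟨a, ha, hza, hm⟩
    have h4 : f z ≠ y := by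
      intro h
      apply hne
      rw [← h]
      exact hf.inv z hz
    have h5 := hf.special z y hz h1 h3 h4
    exact (reach_iff H (hf.maps y h1).1).2 ⟨(hf.maps z hz).1, h5.1⟩

end sys

/-- Assembly of Delanoy's descent conjecture. -/
theorem final_ {B W : Type*} [Fintype B] [DecidableEq B] {M : CoxeterMatrix B} [Group W]
    [Finite W] (cs : CoxeterSystem M W) (_hsl : ∀ i j, i ≠ j → M i j = 2 ∨ M i j = 3)
    (hS : ∀ u, S_SYS cs u) (hcnt : ∀ σ : Sys (B → ℤ) W, S_CNT σ)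
    (hch : ∀ σ : Sys (B → ℤ) W, S_CHAIN σ) (hz : ∀ σ : Sys (B → ℤ) W, S_ZREG σ)
    (hm : ∀ σ : Sys (B → ℤ) W, S_MAIN σ) : S_FINAL cs := by
  intro u w huw hZ
  by_contra hcon
  push Not at hcon
  obtain ⟨σ, hP, hmu, hr, ht, hs, _⟩ := hS u
  have H : HS cs σ u := ⟨hcnt σ, hch σ, hP, hmu, hr, ht⟩
  -- regularity
  have hreg : σ.RegUp w := by
    apply hz σ w
    rintro v hv ⟨a, ha⟩
    have h1 := (reach_iff H huw.1).1 hv
    have h2 := Psi_stp H ha
    have h3 : BLt cs u v := by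
      refine ⟨h1.1, ?_⟩
      rintro rfl
      have h4 := BLe.len h2.2
      obtain ⟨t, _, _, hl⟩ := h2.1
      omega
    obtain ⟨f, hf⟩ := hZ v h3 h1.2
    exact ⟨f, sm H h1.1 hf⟩
  -- reach u
  have hru : σ.Reach w u := (reach_iff H huw.1).2 ⟨BLe.refl _, huw.1⟩
  have hex : ∃ a, σ.Psi w a := by
    rcases Relation.ReflTransGen.cases_head hru with h1 | ⟨c, ⟨a, ha, _⟩, _⟩
    · exact absurd h1.symm huw.2
    · exact ⟨a, ha⟩
  have hsim : ∀ s ∈ σ.S, σ.R w s → σ.Psi w s := by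
    intro s hsS hR
    obtain ⟨i, hi⟩ := hs s hsS
    have h1 := (R_iff H.hc H.hmu hR.1 hR.2.1 w).1 hR
    rw [hi w] at h1
    have h2 := (hcon i h1).1
    refine ⟨hR, (hP _).2 ?_⟩
    rw [hi w]
    exact h2
  obtain ⟨s, hsS, hR, hall⟩ := hm σ w hreg hex hsim
  obtain ⟨i, hi⟩ := hs s hsS
  have h1 := (R_iff H.hc H.hmu hR.1 hR.2.1 w).1 hR
  rw [hi w] at h1
  have h2 := (hcon i h1).2
  have h3 := (hP _).1 (hall u hru)
  rw [hi u] at h3
  have h4 := BLe.len h3
  have h5 := cs.length_simple_mul_ne u i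
  omega

end Pool.Agent.W227.DC
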